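import Mathlib

/-!
A vertex-transitive digraph of out-degree 2 on 20 vertices such that in each of its
Cayley-coset presentations the vertex stabilizer has order greater than 2.
-/

namespace Pool.Agent.Results.MP_89824e_co.LargeStabilizer

/-- The arcs of the Cayley-coset digraph on the left cosets of `H`: there is an arc from `gH` to
`g'H` if `g⁻¹ g'` lies in `HSH`. -/
def cosetArc {G : Type} [Group G] (S : Set G) (H : Subgroup G) (a b : G ⧸ H) : Prop :=
  ∃ g g' : G, a = (g : G ⧸ H) ∧ b = (g' : G ⧸ H) ∧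
    ∃ h ∈ H, ∃ s ∈ S, ∃ h' ∈ H, g⁻¹ * g' = h * s * h'

/-- The vertices. -/
abbrev V : Type := ZMod 5 × ZMod 2 × ZMod 2

/-- The arcs. -/
def arc (v w : V) : Prop := w.1 = v.1 + 1 ∧ w.2.1 = v.2.2

/-- The flips. -/
def flip (e : ZMod 5 → ZMod 2) (v : V) : V := (v.1, v.2.1 + e v.1, v.2.2 + e (v.1 + 1))

theorem two_cases : ∀ f : ZMod 2 → ZMod 2, f 0 ≠ f 1 → ∀ x, f x = x + f 0 := by
  decide

/-- The shape of the automorphisms. -/
theorem aut_form (σ : V → V) (hinj : Function.Injective σ)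
    (hσ : ∀ a b, arc a b → arc (σ a) (σ b)) :
    ∃ (s : ZMod 5) (e : ZMod 5 → ZMod 2),
      ∀ v : V, σ v = (v.1 + s, v.2.1 + e (v.1 + s), v.2.2 + e (v.1 + s + 1)) := by
  have harc : ∀ i x y z, arc (i, x, y) (i + 1, y, z) := fun i x y z => ⟨rfl, rfl⟩
  -- the level is shifted by a constant
  have hs1 : ∀ i x y z, (σ (i + 1, y, z)).1 = (σ (i, x, y)).1 + 1 := fun i x y z =>
    (hσ _ _ (harc i x y z)).1
  have hs2 : ∀ i x y z t, (σ (i + 1 + 1, z, t)).1 = (σ (i, x, y)).1 + 1 + 1 := by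
    intro i x y z t
    rw [hs1 (i + 1) y z t, hs1 i x y z]
  have hlev : ∀ i x y, (σ (i, x, y)).1 = i + (σ (0, 0, 0)).1 := by
    intro i x y
    have h0 : ∀ x y, (σ (0, x, y)).1 = (σ (0, 0, 0)).1 := by
      intro x y
      have h1 := hs2 0 x y 0 0
      have h2 := hs2 0 0 0 0 0
      rw [h1] at h2
      exact add_right_cancel (add_right_cancel h2)
    have hstep : ∀ i : ZMod 5, (∀ x y, (σ (i, x, y)).1 = i + (σ (0, 0, 0)).1) →
        ∀ x y, (σ (i + 1, x, y)).1 = i + 1 + (σ (0, 0, 0)).1 := by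
      intro i hi x y
      rw [hs1 i 0 x y, hi]
      ring
    have hz : ∀ x y, (σ (0, x, y)).1 = 0 + (σ (0, 0, 0)).1 := by
      intro x y; rw [zero_add]; exact h0 x y
    have h1 := hstep 0 hz
    have h2 := hstep _ h1
    have h3 := hstep _ h2
    have h4 := hstep _ h3
    have hcases : ∀ i : ZMod 5, i = 0 ∨ i = 0 + 1 ∨ i = 0 + 1 + 1 ∨ i = 0 + 1 + 1 + 1 ∨
        i = 0 + 1 + 1 + 1 + 1 := by decide
    rcases hcases i with rfl | rfl | rfl | rfl | rfl
    · exact hz x y
    · exact h1 x y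
    · exact h2 x y
    · exact h3 x y
    · exact h4 x y
  -- the first coordinate depends only on the first coordinate
  have hfst : ∀ i x y z, (σ (i, x, y)).2.1 = (σ (i, x, z)).2.1 := by
    intro i x y z
    have h1 := (hσ _ _ (harc (i - 1) 0 x y)).2
    have h2 := (hσ _ _ (harc (i - 1) 0 x z)).2
    rw [sub_add_cancel] at h1 h2
    rw [h1, h2]
  have hsnd : ∀ i x y, (σ (i, x, y)).2.2 = (σ (i + 1, y, 0)).2.1 := fun i x y =>
    ((hσ _ _ (harc i x y 0)).2).symm
  have hne : ∀ i, (σ (i, 0, 0)).2.1 ≠ (σ (i, 1, 0)).2.1 := by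
    intro i h
    have h1 : σ (i, 0, 0) = σ (i, 1, 0) := by
      refine Prod.ext ?_ (Prod.ext h ?_)
      · rw [hlev i 0 0, hlev i 1 0]
      · rw [hsnd, hsnd]
    have h2 := hinj h1
    have h3 : (0 : ZMod 2) = 1 := congrArg (fun v : V => v.2.1) h2
    exact absurd h3 (by decide)
  have hform : ∀ i x y, (σ (i, x, y)).2.1 = x + (σ (i, 0, 0)).2.1 := by
    intro i x y
    rw [hfst i x y 0]
    exact two_cases (fun x => (σ (i, x, 0)).2.1) (hne i) x
  refine ⟨(σ (0, 0, 0)).1, fun j => (σ (j - (σ (0, 0, 0)).1, 0, 0)).2.1, ?_⟩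
  rintro ⟨i, x, y⟩
  refine Prod.ext (hlev i x y) (Prod.ext ?_ ?_)
  · show (σ (i, x, y)).2.1 = x + (σ (i + (σ (0, 0, 0)).1 - (σ (0, 0, 0)).1, 0, 0)).2.1
    rw [add_sub_cancel_right]
    exact hform i x y
  · show (σ (i, x, y)).2.2 = y + (σ (i + (σ (0, 0, 0)).1 + 1 - (σ (0, 0, 0)).1, 0, 0)).2.1
    rw [show i + (σ (0, 0, 0)).1 + 1 - (σ (0, 0, 0)).1 = i + 1 from by ring, hsnd]
    exact hform (i + 1) y 0

/-- The target vectors. -/
def tgt (a b : ZMod 2) : ZMod 5 → ZMod 2 := ![0, 0, a, b, a + b]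

/-- A vector with first coordinates 1, 0. -/
def ev (e2 e3 e4 : ZMod 2) : ZMod 5 → ZMod 2 := ![1, 0, e2, e3, e4]

theorem span_aux : ∀ e2 e3 e4 a b : ZMod 2, ∃ c0 c1 c2 c3 c4 : ZMod 2, ∀ i : ZMod 5,
    tgt a b i = c0 * ev e2 e3 e4 i + c1 * ev e2 e3 e4 (i - 1) + c2 * ev e2 e3 e4 (i - 2) +
      c3 * ev e2 e3 e4 (i - 3) + c4 * ev e2 e3 e4 (i - 4) := by
  decide +kernel

theorem span_mem (K : AddSubmonoid (ZMod 5 → ZMod 2))
    (hshift : ∀ e ∈ K, (fun i => e (i - 1)) ∈ K) {e : ZMod 5 → ZMod 2} (he : e ∈ K)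
    (h0 : e 0 = 1) (h1 : e 1 = 0) (a b : ZMod 2) : tgt a b ∈ K := by
  have he' : e = ev (e 2) (e 3) (e 4) := by
    funext i
    have hcases : ∀ i : ZMod 5, i = 0 ∨ i = 1 ∨ i = 2 ∨ i = 3 ∨ i = 4 := by decide
    rcases hcases i with rfl | rfl | rfl | rfl | rfl
    · exact h0
    · exact h1
    · rfl
    · rfl
    · rfl
  obtain ⟨c0, c1, c2, c3, c4, hc⟩ := span_aux (e 2) (e 3) (e 4) a b
  rw [← he'] at hc
  have hsmul : ∀ (c : ZMod 2) (f : ZMod 5 → ZMod 2), f ∈ K → (fun i => c * f i) ∈ K := by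
    intro c f hf
    have hcases : ∀ c : ZMod 2, c = 0 ∨ c = 1 := by decide
    rcases hcases c with rfl | rfl
    · simp only [zero_mul]
      exact K.zero_mem
    · simp only [one_mul]
      exact hf
  have s1 := hshift e he
  have s2 : (fun i => e (i - 2)) ∈ K := by
    have h := hshift _ s1
    have h2 : (fun i : ZMod 5 => e (i - 1 - 1)) = fun i => e (i - 2) := by
      funext i; congr 1; ring
    rwa [h2] at h
  have s3 : (fun i => e (i - 3)) ∈ K := by
    have h := hshift _ s2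
    have h2 : (fun i : ZMod 5 => e (i - 1 - 2)) = fun i => e (i - 3) := by
      funext i; congr 1; ring
    rwa [h2] at h
  have s4 : (fun i => e (i - 4)) ∈ K := by
    have h := hshift _ s3
    have h2 : (fun i : ZMod 5 => e (i - 1 - 3)) = fun i => e (i - 4) := by
      funext i; congr 1; ring
    rwa [h2] at h
  have h := K.add_mem (K.add_mem (K.add_mem (K.add_mem (hsmul c0 _ he) (hsmul c1 _ s1))
    (hsmul c2 _ s2)) (hsmul c3 _ s3)) (hsmul c4 _ s4)
  have h2 : tgt a b = ((((fun i => c0 * e i) + fun i => c1 * e (i - 1)) +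
      fun i => c2 * e (i - 2)) + fun i => c3 * e (i - 3)) + fun i => c4 * e (i - 4) := by
    funext i
    exact hc i
  rw [h2]
  exact h

theorem tgt_injective {a b a' b' : ZMod 2} (h : tgt a b = tgt a' b') : a = a' ∧ b = b' :=
  ⟨congrFun h 2, congrFun h 3⟩

/-- The main argument. -/
theorem stabilizer_large {G : Type} [Group G] [Finite G] (H : Subgroup G) (S : Set G)
    (φ : V ≃ G ⧸ H) (hφ : ∀ a b, arc a b ↔ cosetArc S H (φ a) (φ b)) : 2 < Nat.card H := by
  -- the action on the vertices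
  let σ : G → V → V := fun g v => φ.symm (g • φ v)
  have hσmul : ∀ g g' v, σ (g * g') v = σ g (σ g' v) := by
    intro g g' v
    show φ.symm ((g * g') • φ v) = φ.symm (g • φ (φ.symm (g' • φ v)))
    rw [φ.apply_symm_apply, mul_smul]
  have hσone : ∀ v, σ 1 v = v := by
    intro v
    show φ.symm ((1 : G) • φ v) = v
    rw [one_smul, φ.symm_apply_apply]
  have hσinj : ∀ g, Function.Injective (σ g) := by
    intro g v w h
    have h1 : σ g⁻¹ (σ g v) = σ g⁻¹ (σ g w) := by rw [h]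
    rwa [← hσmul, ← hσmul, inv_mul_cancel, hσone, hσone] at h1
  have hσarc : ∀ g a b, arc a b → arc (σ g a) (σ g b) := by
    intro g a b h
    rw [hφ] at h ⊢
    obtain ⟨x, y, hx, hy, hs⟩ := h
    refine ⟨g * x, g * y, ?_, ?_, ?_⟩
    · show φ (φ.symm (g • φ a)) = _
      rw [φ.apply_symm_apply, hx]
      rfl
    · show φ (φ.symm (g • φ b)) = _
      rw [φ.apply_symm_apply, hy]
      rfl
    · rwa [mul_inv_rev, mul_assoc, inv_mul_cancel_left]
  have htrans : ∀ v w, ∃ g, σ g v = w := by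
    intro v w
    obtain ⟨x, hx⟩ := QuotientGroup.mk_surjective (φ v)
    obtain ⟨y, hy⟩ := QuotientGroup.mk_surjective (φ w)
    refine ⟨y * x⁻¹, ?_⟩
    show φ.symm ((y * x⁻¹) • φ v) = w
    rw [← hx]
    have h1 : (y * x⁻¹) • (x : G ⧸ H) = ((y * x⁻¹ * x : G) : G ⧸ H) := rfl
    rw [h1, inv_mul_cancel_right, hy, φ.symm_apply_apply]
  -- the flips that occur
  let K : AddSubmonoid (ZMod 5 → ZMod 2) :=
    { carrier := {e | ∃ g, ∀ v, σ g v = flip e v}
      zero_mem' := ⟨1, fun v => by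
        rw [hσone]
        show v = (v.1, v.2.1 + 0, v.2.2 + 0)
        rw [add_zero, add_zero]⟩
      add_mem' := by
        rintro e f ⟨g, hg⟩ ⟨g', hg'⟩
        refine ⟨g * g', fun v => ?_⟩
        rw [hσmul, hg', hg]
        show (v.1, v.2.1 + f v.1 + e v.1, v.2.2 + f (v.1 + 1) + e (v.1 + 1)) =
          (v.1, v.2.1 + (e v.1 + f v.1), v.2.2 + (e (v.1 + 1) + f (v.1 + 1)))
        rw [add_assoc, add_assoc, add_comm (f v.1), add_comm (f (v.1 + 1))] }
  have hshift : ∀ e ∈ K, (fun i => e (i - 1)) ∈ K := by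
    rintro e ⟨g, hg⟩
    obtain ⟨t, ht⟩ := htrans (0, 0, 0) (1, 0, 0)
    obtain ⟨s, d, hd⟩ := aut_form (σ t) (hσinj t) (hσarc t)
    have hs : s = 1 := by
      have h1 := hd (0, 0, 0)
      rw [ht] at h1
      have h2 := congrArg Prod.fst h1
      simpa using h2.symm
    subst hs
    refine ⟨t * g * t⁻¹, fun w => ?_⟩
    obtain ⟨v, hv⟩ : ∃ v, σ t v = w := ⟨σ t⁻¹ w, by rw [← hσmul, mul_inv_cancel, hσone]⟩
    have h1 : σ (t * g * t⁻¹) w = σ t (σ g v) := by
      rw [← hv, ← hσmul, ← hσmul, inv_mul_cancel_right]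
    rw [h1, hg, hd, ← hv, hd]
    show (v.1 + 1, v.2.1 + e v.1 + d (v.1 + 1), v.2.2 + e (v.1 + 1) + d (v.1 + 1 + 1)) =
      (v.1 + 1, v.2.1 + d (v.1 + 1) + e (v.1 + 1 - 1),
        v.2.2 + d (v.1 + 1 + 1) + e (v.1 + 1 + 1 - 1))
    rw [add_sub_cancel_right, add_sub_cancel_right, add_right_comm v.2.1, add_right_comm v.2.2]
  obtain ⟨e, heK, he0, he1⟩ : ∃ e ∈ K, e 0 = 1 ∧ e 1 = 0 := by
    obtain ⟨t, ht⟩ := htrans (0, 0, 0) (0, 1, 0)
    obtain ⟨s, d, hd⟩ := aut_form (σ t) (hσinj t) (hσarc t)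
    have h1 := hd (0, 0, 0)
    rw [ht] at h1
    have hs : s = 0 := by
      have h2 := congrArg Prod.fst h1
      simpa using h2.symm
    subst hs
    refine ⟨d, ⟨t, fun v => ?_⟩, ?_, ?_⟩
    · rw [hd, add_zero]
      rfl
    · have h2 := congrArg (fun v : V => v.2.1) h1
      simpa using h2.symm
    · have h2 := congrArg (fun v : V => v.2.2) h1
      simpa using h2.symm
  have hmem : ∀ p : ZMod 2 × ZMod 2, ∃ g, ∀ v, σ g v = flip (tgt p.1 p.2) v := fun p =>
    span_mem K hshift heK he0 he1 p.1 p.2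
  choose γ hγ using hmem
  obtain ⟨k, hk⟩ := QuotientGroup.mk_surjective (φ (0, 0, 0))
  have hH : ∀ p, k⁻¹ * (γ p * k) ∈ H := by
    intro p
    have h1 : σ (γ p) (0, 0, 0) = (0, 0, 0) := by
      rw [hγ]
      show ((0 : ZMod 5), (0 : ZMod 2) + tgt p.1 p.2 0, (0 : ZMod 2) + tgt p.1 p.2 (0 + 1)) = _
      rw [zero_add, zero_add, zero_add]
      rfl
    have h2 : γ p • φ (0, 0, 0) = φ (0, 0, 0) := by
      have h3 := congrArg φ h1
      have h4 : φ (φ.symm (γ p • φ (0, 0, 0))) = φ (0, 0, 0) := h3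
      rwa [φ.apply_symm_apply] at h4
    rw [← hk] at h2
    have h3 : ((γ p * k : G) : G ⧸ H) = (k : G ⧸ H) := h2
    exact QuotientGroup.eq.1 h3.symm
  have hinj : Function.Injective fun p => (⟨k⁻¹ * (γ p * k), hH p⟩ : H) := by
    intro p p' h
    have h1 : k⁻¹ * (γ p * k) = k⁻¹ * (γ p' * k) := congrArg Subtype.val h
    have h2 : γ p = γ p' := mul_right_cancel (mul_left_cancel h1)
    have h3 : ∀ v, flip (tgt p.1 p.2) v = flip (tgt p'.1 p'.2) v := by
      intro v
      rw [← hγ, ← hγ, h2]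
    have h4 : tgt p.1 p.2 = tgt p'.1 p'.2 := by
      funext i
      have h5 := congrArg (fun v : V => v.2.1) (h3 (i, 0, 0))
      have h6 : (0 : ZMod 2) + tgt p.1 p.2 i = 0 + tgt p'.1 p'.2 i := h5
      rwa [zero_add, zero_add] at h6
    have h5 := tgt_injective h4
    exact Prod.ext h5.1 h5.2
  have h4 := Nat.card_le_card_of_injective _ hinj
  have h5 : Nat.card (ZMod 2 × ZMod 2) = 4 := by
    rw [Nat.card_prod, Nat.card_zmod]
  omega

/-- There is a vertex-transitive digraph of out-degree 2 (on 20 vertices) such that every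
Cayley-coset presentation of it has a stabilizer of order greater than 2. -/
theorem result : ∃ (V : Type) (_ : Finite V) (A : V → V → Prop),
    (∀ v, ¬ A v v) ∧
    (∀ v, Nat.card {w // A v w} = 2) ∧
    (∀ v w, ∃ τ : Equiv.Perm V, (∀ a b, A (τ a) (τ b) ↔ A a b) ∧ τ v = w) ∧
    ∀ (G : Type) [Group G] [Finite G] (H : Subgroup G) (S : Set G), S ∩ H = ∅ →
      (∃ φ : V ≃ G ⧸ H, ∀ a b, A a b ↔ cosetArc S H (φ a) (φ b)) → 2 < Nat.card H := by
  refine ⟨V, inferInstance, arc, ?_, ?_, ?_, ?_⟩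
  · rintro ⟨i, x, y⟩ ⟨h, -⟩
    have hne : ∀ j : ZMod 5, j ≠ j + 1 := by decide
    exact hne i h
  · rintro ⟨i, x, y⟩
    have h1 : Nat.card {w // arc (i, x, y) w} = Nat.card (ZMod 2) := by
      refine Nat.card_congr
        { toFun := fun w => w.1.2.2
          invFun := fun z => ⟨(i + 1, y, z), rfl, rfl⟩
          left_inv := ?_
          right_inv := ?_ }
      · rintro ⟨⟨j, a, b⟩, h1, h2⟩
        have h1' : j = i + 1 := h1
        have h2' : a = y := h2
        subst h1' h2'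
        rfl
      · intro z
        rfl
    rw [h1, Nat.card_zmod]
  · rintro ⟨i, x, y⟩ ⟨j, z, t⟩
    -- shift, then flip
    let e : ZMod 5 → ZMod 2 := fun l => if l = j then x + z else if l = j + 1 then y + t else 0
    let τ : Equiv.Perm V :=
      { toFun := fun v => (v.1 + (j - i), v.2.1 + e (v.1 + (j - i)), v.2.2 + e (v.1 + (j - i) + 1))
        invFun := fun v => (v.1 - (j - i), v.2.1 + e v.1, v.2.2 + e (v.1 + 1))
        left_inv := by
          rintro ⟨l, a, b⟩
          have h2 : ∀ a b : ZMod 2, a + b + b = a := by decide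
          show (l + (j - i) - (j - i), a + e (l + (j - i)) + e (l + (j - i)),
            b + e (l + (j - i) + 1) + e (l + (j - i) + 1)) = (l, a, b)
          rw [h2, h2, add_sub_cancel_right]
        right_inv := by
          rintro ⟨l, a, b⟩
          have h2 : ∀ a b : ZMod 2, a + b + b = a := by decide
          show (l - (j - i) + (j - i), a + e l + e (l - (j - i) + (j - i)),
            b + e (l + 1) + e (l - (j - i) + (j - i) + 1)) = (l, a, b)
          rw [sub_add_cancel, h2, h2] }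
    refine ⟨τ, ?_, ?_⟩
    · rintro ⟨l, a, b⟩ ⟨l', a', b'⟩
      show (l' + (j - i) = l + (j - i) + 1 ∧ a' + e (l' + (j - i)) = b + e (l + (j - i) + 1)) ↔
        (l' = l + 1 ∧ a' = b)
      constructor
      · rintro ⟨h1, h2⟩
        have h3 : l' = l + 1 := by linear_combination h1
        subst h3
        refine ⟨rfl, ?_⟩
        rw [show l + 1 + (j - i) = l + (j - i) + 1 from by ring] at h2
        exact add_right_cancel h2
      · rintro ⟨rfl, rfl⟩
        refine ⟨by ring, ?_⟩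
        rw [show l + 1 + (j - i) = l + (j - i) + 1 from by ring]
    · show (i + (j - i), x + e (i + (j - i)), y + e (i + (j - i) + 1)) = (j, z, t)
      rw [add_sub_cancel]
      have h1 : e j = x + z := if_pos rfl
      have hne : ∀ j : ZMod 5, j + 1 ≠ j := by decide
      have h2 : e (j + 1) = y + t := by
        show (if j + 1 = j then x + z else if j + 1 = j + 1 then y + t else 0) = _
        rw [if_neg (hne j), if_pos rfl]
      have h3 : ∀ a b : ZMod 2, a + (a + b) = b := by decide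
      rw [h1, h2, h3, h3]
  · intro G _ _ H S _ ⟨φ, hφ⟩
    exact stabilizer_large H S φ hφ

end Pool.Agent.Results.MP_89824e_co.LargeStabilizer
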